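import Pool.Agent.Lib.MP_9aaefc_al.Series

/-!
The chain rule at the origin and the inverse function theorem for formal maps.
-/

set_option autoImplicit false

namespace Pool.Agent.Lib.MP_9aaefc_al

open Module MvPowerSeries

variable {n : ℕ}

theorem degree_lt_two {d : Fin n →₀ ℕ} (hd : d.degree < 2) :
    d = 0 ∨ ∃ j, d = Finsupp.single j 1 := by
  rcases Nat.lt_or_ge d.degree 1 with h | h
  · left
    exact (Finsupp.degree_eq_zero_iff d).1 (by omega)
  · right
    have h1 : d ∈ {d : Fin n →₀ ℕ | d.degree = 1} := by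
      show d.degree = 1
      omega
    rw [← Finsupp.range_single_one] at h1
    obtain ⟨j, hj⟩ := h1
    exact ⟨j, hj.symm⟩

theorem coeff_single_X (j l : Fin n) :
    coeff (Finsupp.single l 1) (X j : PS n) = if j = l then 1 else 0 := by
  classical
  rw [coeff_X]
  by_cases h : j = l
  · simp [h]
  · rw [if_neg h, if_neg]
    intro h'
    exact h (Finsupp.single_left_injective one_ne_zero h').symm

theorem sub_lin_mem {f : PS n} (hf : constantCoeff f = 0) :
    f - ∑ j, coeff (Finsupp.single j 1) f • (X j : PS n) ∈ ordI n 2 := by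
  rw [mem_ordI_iff]
  intro d hd
  rcases degree_lt_two hd with rfl | ⟨l, rfl⟩
  · simp [hf]
  · simp [coeff_single_X]

theorem coeff_single_subst {g : Fin n → PS n} (hg : ∀ i, constantCoeff (g i) = 0) {f : PS n}
    (hf : constantCoeff f = 0) (l : Fin n) :
    coeff (Finsupp.single l 1) (subst g f : PS n) =
      ∑ j, coeff (Finsupp.single j 1) f * coeff (Finsupp.single l 1) (g j) := by
  have h := mem_ordI_iff.1 (sig_mem g hg (sub_lin_mem hf)) (Finsupp.single l 1) (by simp)
  rw [map_sub, map_sum, map_sub, sub_eq_zero, sig_apply] at h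
  rw [h, map_sum]
  refine Finset.sum_congr rfl fun j _ => ?_
  rw [map_smul, sig_X, map_smul, smul_eq_mul]

theorem exists_inverse (F : Fin n → PS n) (hF : ∀ i, constantCoeff (F i) = 0)
    (hJ : (Matrix.of fun i j => coeff (Finsupp.single j 1) (F i)).det ≠ 0) :
    ∃ G : Fin n → PS n, (∀ i, constantCoeff (G i) = 0) ∧
      (∀ i, subst G (F i) = (X i : PS n)) ∧ ∀ i, subst F (G i) = (X i : PS n) := by
  classical
  set J : Matrix (Fin n) (Fin n) ℂ := Matrix.of fun i j => coeff (Finsupp.single j 1) (F i)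
    with hJdef
  have hJJ : J⁻¹ * J = 1 := Matrix.nonsing_inv_mul J (isUnit_iff_ne_zero.2 hJ)
  let L : Fin n → PS n := fun i => ∑ j, J⁻¹ i j • X j
  have hL : ∀ i, constantCoeff (L i) = 0 := fun i => by simp [L]
  have hLc : ∀ i j, coeff (Finsupp.single j 1) (L i) = J⁻¹ i j := fun i j => by
    simp [L, coeff_single_X]
  let ψ : PS n →ₐ[ℂ] PS n := (sig F hF).comp (sig L hL)
  have hψ : ∀ k, ∀ f ∈ ordI n k, ψ f ∈ ordI n k := fun k f hf => sig_mem F hF (sig_mem L hL hf)
  have hX : ∀ i, ψ (X i) - X i ∈ ordI n 2 := by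
    intro i
    have e : ψ (X i) = subst F (L i) := by
      simp only [ψ, AlgHom.comp_apply]
      rw [sig_X, sig_apply]
    rw [e, mem_ordI_iff]
    intro d hd
    rcases degree_lt_two hd with rfl | ⟨l, rfl⟩
    · have := constantCoeff_subst_eq_zero (hasSubst_of_constantCoeff_zero hF) hF (hL i)
      simpa using this
    · rw [map_sub, coeff_single_subst hF (hL i), coeff_single_X, sub_eq_zero]
      have := congrFun (congrFun hJJ i) l
      rw [Matrix.mul_apply, Matrix.one_apply] at this
      rw [← this]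
      exact Finset.sum_congr rfl fun j _ => by rw [hLc]; rfl
  have hsurj : ∀ k, Function.Surjective (bar F hF k) := by
    intro k v
    obtain ⟨f, rfl⟩ := Ideal.Quotient.mk_surjective v
    have key : ∀ (j : ℕ) (f : PS n), ∃ g, ψ g - f ∈ ordI n j := by
      intro j
      induction j with
      | zero => intro f; exact ⟨0, by simp [mem_ordI]⟩
      | succ j ih =>
        intro f
        obtain ⟨g, hg⟩ := ih f
        refine ⟨g - (ψ g - f), ?_⟩
        have := Ideal.neg_mem_iff _ |>.2 (unip_step ψ hψ hX j _ hg)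
        convert this using 1
        rw [map_sub]
        ring
    obtain ⟨g, hg⟩ := key k f
    exact ⟨Ideal.Quotient.mk _ (sig L hL g), by rw [bar_mk, Ideal.Quotient.eq]; exact hg⟩
  have hbij : ∀ k, Function.Bijective (bar F hF k) := fun k =>
    ⟨(LinearMap.injective_iff_surjective (f := (bar F hF k).toLinearMap)).2 (hsurj k), hsurj k⟩
  let T : ∀ k, Q n k →ₐ[ℂ] Q n k := fun k => (AlgEquiv.ofBijective _ (hbij k)).symm
  have hT1 : ∀ k v, T k (bar F hF k v) = v := fun k v =>
    (AlgEquiv.ofBijective _ (hbij k)).symm_apply_apply v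
  have hT2 : ∀ k v, bar F hF k (T k v) = v := fun k v =>
    (AlgEquiv.ofBijective _ (hbij k)).apply_symm_apply v
  obtain ⟨G, hG, hGT⟩ := exists_limit T (by
    intro k l h v
    obtain ⟨w, rfl⟩ := hsurj k v
    obtain ⟨f, rfl⟩ := Ideal.Quotient.mk_surjective w
    rw [hT1, bar_mk, proj_mk, proj_mk, ← bar_mk, hT1])
  refine ⟨G, hG, fun i => eq_of_forall_sub_mem fun k => ?_,
    fun i => eq_of_forall_sub_mem fun k => ?_⟩
  · rw [← Ideal.Quotient.eq, ← sig_apply G hG, hGT, ← sig_X F hF i, ← bar_mk, hT1]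
  · rw [← Ideal.Quotient.eq, ← sig_apply F hF, ← bar_mk, ← sig_X G hG i, hGT, hT2]

end Pool.Agent.Lib.MP_9aaefc_al
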