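import Mathlib

/-!
Linear algebra: twisting an endomorphism on its generalised eigenspaces.
-/

set_option autoImplicit false

namespace Pool.Agent.Lib.MP_9aaefc_al

open Module

section Character

/-- A multiplicative self-map of the complex numbers that sends `-1` to `-1` and every nonzero
number to a root of unity. -/
theorem exists_character : ∃ c : ℂ → ℂ, c 1 = 1 ∧ (∀ a b, c (a * b) = c a * c b) ∧
    c (-1) = -1 ∧ ∀ a, a ≠ 0 → ∃ m : ℕ, 0 < m ∧ c a ^ m = 1 := by
  classical
  let T : Subgroup ℂˣ := CommGroup.torsion ℂˣ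
  have hsurj : ∀ {n : ℤ}, n ≠ 0 → Function.Surjective fun a : Additive T => n • a := by
    intro n hn a
    obtain ⟨⟨u, hu⟩, rfl⟩ := Additive.ofMul.surjective a
    have hn' : n.natAbs ≠ 0 := Int.natAbs_ne_zero.mpr hn
    obtain ⟨z, hz⟩ := IsAlgClosed.exists_pow_nat_eq (u : ℂ) (Nat.pos_of_ne_zero hn')
    have hz0 : z ≠ 0 := by
      rintro rfl
      rw [zero_pow hn'] at hz
      exact u.ne_zero hz.symm
    let w : ℂˣ := Units.mk0 z hz0
    have hw : w ^ n.natAbs = u := by
      ext; simpa [w] using hz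
    have hwT : w ∈ T := by
      have h1 : IsOfFinOrder u := hu
      rw [← hw] at h1
      exact (isOfFinOrder_pow.mp h1).resolve_right hn'
    rcases Int.natAbs_eq n with h | h
    · refine ⟨Additive.ofMul ⟨w, hwT⟩, ?_⟩
      show n • Additive.ofMul (⟨w, hwT⟩ : T) = _
      rw [← ofMul_zpow]
      congr 1
      ext1
      simp only [SubgroupClass.coe_zpow]
      rw [h, zpow_natCast, hw]
    · refine ⟨Additive.ofMul ⟨w⁻¹, T.inv_mem hwT⟩, ?_⟩
      show n • Additive.ofMul (⟨w⁻¹, T.inv_mem hwT⟩ : T) = _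
      rw [← ofMul_zpow]
      congr 1
      ext1
      simp only [SubgroupClass.coe_zpow]
      rw [h, zpow_neg, zpow_natCast, inv_pow, inv_inv, hw]
  let : DivisibleBy (Additive T) ℤ := divisibleByOfSMulRightSurj _ _ hsurj
  obtain ⟨χ, hχ⟩ := (Module.Baer.of_divisible (Additive T)).extension_property_addMonoidHom
    (MonoidHom.toAdditive T.subtype) (by
      intro a b hab
      exact Additive.toMul.injective (Subtype.ext (congrArg Additive.toMul hab)))
    (AddMonoidHom.id _)
  let χ' : ℂˣ → ℂ := fun u => (((Additive.toMul (χ (Additive.ofMul u)) : T) : ℂˣ) : ℂ)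
  have hmul : ∀ u v, χ' (u * v) = χ' u * χ' v := by
    intro u v
    simp [χ', ofMul_mul, map_add, toMul_add]
  have hfix : ∀ u : T, χ' u = ((u : ℂˣ) : ℂ) := by
    intro u
    have := DFunLike.congr_fun hχ (Additive.ofMul u)
    simp only [AddMonoidHom.coe_comp, Function.comp_apply, AddMonoidHom.id_apply] at this
    have h2 : (MonoidHom.toAdditive T.subtype) (Additive.ofMul u) = Additive.ofMul (u : ℂˣ) := rfl
    rw [h2] at this
    simp [χ', this]
  refine ⟨fun a => if h : a = 0 then 0 else χ' (Units.mk0 a h), ?_, ?_, ?_, ?_⟩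
  · have := hfix 1
    simp only [one_ne_zero, dite_false]
    simpa using this
  · intro a b
    by_cases ha : a = 0
    · simp [ha]
    by_cases hb : b = 0
    · simp [hb]
    simp only [mul_eq_zero, ha, hb, or_self, dite_false]
    rw [← hmul]
    congr 1
    ext; simp
  · have hm : (-1 : ℂˣ) ∈ T := by
      show IsOfFinOrder (-1 : ℂˣ)
      exact isOfFinOrder_iff_pow_eq_one.mpr ⟨2, by norm_num, by simp⟩
    have := hfix ⟨-1, hm⟩
    have h1 : (-1 : ℂ) ≠ 0 := by norm_num
    simp only [h1, dite_false]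
    have h3 : Units.mk0 (-1 : ℂ) h1 = -1 := by ext; simp
    rw [h3]
    simpa using this
  · intro a ha
    simp only [ha, dite_false]
    have h1 : IsOfFinOrder ((Additive.toMul (χ (Additive.ofMul (Units.mk0 a ha))) : T) : ℂˣ) :=
      (Additive.toMul (χ (Additive.ofMul (Units.mk0 a ha))) : T).2
    obtain ⟨m, hm, h2⟩ := isOfFinOrder_iff_pow_eq_one.mp h1
    refine ⟨m, hm, ?_⟩
    have := congrArg (fun u : ℂˣ => (u : ℂ)) h2
    simpa [χ'] using this

end Character

section Twist

variable {V W : Type*} [AddCommGroup V] [Module ℂ V] [AddCommGroup W] [Module ℂ W]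

theorem eig_induction [FiniteDimensional ℂ V] (h : End ℂ V) {P : V → Prop}
    (h0 : P 0) (hadd : ∀ x y, P x → P y → P (x + y))
    (hmem : ∀ μ x, x ∈ h.maxGenEigenspace μ → P x) (v : V) : P v := by
  have hv : v ∈ ⨆ μ, h.maxGenEigenspace μ := by
    rw [Module.End.iSup_maxGenEigenspace_eq_top]; trivial
  exact Submodule.iSup_induction (fun μ => h.maxGenEigenspace μ) (motive := P) hv hmem h0 hadd

theorem exists_twist [FiniteDimensional ℂ V] (h : End ℂ V) (c : ℂ → ℂ) :
    ∃ T : End ℂ V, ∀ μ v, v ∈ h.maxGenEigenspace μ → T v = c μ • v := by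
  classical
  have hint : DirectSum.IsInternal (fun μ => h.maxGenEigenspace μ) :=
    DirectSum.isInternal_submodule_of_iSupIndep_of_iSup_eq_top
      h.independent_maxGenEigenspace h.iSup_maxGenEigenspace_eq_top
  let e := LinearEquiv.ofBijective (DirectSum.coeLinearMap (fun μ => h.maxGenEigenspace μ)) hint
  refine ⟨(DirectSum.toModule ℂ ℂ V (fun μ => c μ • (h.maxGenEigenspace μ).subtype)) ∘ₗ
    e.symm.toLinearMap, ?_⟩
  intro μ v hv
  have : e.symm v = DirectSum.lof ℂ ℂ (fun μ => h.maxGenEigenspace μ) μ ⟨v, hv⟩ := by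
    rw [LinearEquiv.symm_apply_eq]
    exact (DirectSum.coeLinearMap_of (fun μ => h.maxGenEigenspace μ) μ ⟨v, hv⟩).symm
  simp [this]

theorem map_mem_eig (h : End ℂ V) (h' : End ℂ W) (φ : V →ₗ[ℂ] W) (s : ℂ)
    (hφ : ∀ v, h' (φ v) = s • φ (h v)) {μ : ℂ} {v : V} (hv : v ∈ h.maxGenEigenspace μ) :
    φ v ∈ h'.maxGenEigenspace (s * μ) := by
  rw [Module.End.mem_maxGenEigenspace] at hv ⊢
  obtain ⟨k, hk⟩ := hv
  refine ⟨k, ?_⟩
  have key : ∀ (k : ℕ) (v : V), ((h' - (s * μ) • (1 : End ℂ W)) ^ k) (φ v) =
      s ^ k • φ (((h - μ • (1 : End ℂ V)) ^ k) v) := by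
    intro k
    induction k with
    | zero => intro v; simp
    | succ k ih =>
      intro v
      rw [pow_succ, pow_succ (h - μ • (1 : End ℂ V)), Module.End.mul_apply, Module.End.mul_apply]
      have : (h' - (s * μ) • (1 : End ℂ W)) (φ v) = s • φ ((h - μ • (1 : End ℂ V)) v) := by
        simp [hφ, smul_sub, mul_smul]
      rw [this, map_smul, ih, smul_smul, pow_succ']
  rw [key, hk]; simp

end Twist

section Alg

variable {A : Type*} [CommRing A] [Algebra ℂ A]

theorem mul_mem_eig (h : A →ₐ[ℂ] A) {l m : ℂ} {a b : A}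
    (ha : a ∈ Module.End.maxGenEigenspace (h.toLinearMap : End ℂ A) l)
    (hb : b ∈ Module.End.maxGenEigenspace (h.toLinearMap : End ℂ A) m) :
    a * b ∈ Module.End.maxGenEigenspace (h.toLinearMap : End ℂ A) (l * m) := by
  rw [Module.End.mem_maxGenEigenspace] at ha hb ⊢
  obtain ⟨i, hi⟩ := ha
  obtain ⟨j, hj⟩ := hb
  set H : End ℂ A := h.toLinearMap with hH
  have key : ∀ (N i j : ℕ) (a b : A), i + j = N → ((H - l • (1 : End ℂ A)) ^ i) a = 0 →
      ((H - m • (1 : End ℂ A)) ^ j) b = 0 → ((H - (l * m) • (1 : End ℂ A)) ^ N) (a * b) = 0 := by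
    intro N
    induction N with
    | zero =>
      intro i j a b hN hi _
      have : i = 0 := by omega
      subst this
      simp only [pow_zero, Module.End.one_apply] at hi
      simp [hi]
    | succ N ih =>
      intro i j a b hN hi hj
      rcases Nat.eq_zero_or_pos i with rfl | hi0
      · simp only [pow_zero, Module.End.one_apply] at hi
        simp [hi]
      rcases Nat.eq_zero_or_pos j with rfl | hj0
      · simp only [pow_zero, Module.End.one_apply] at hj
        simp [hj]
      obtain ⟨i, rfl⟩ : ∃ i', i = i' + 1 := ⟨i - 1, by omega⟩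
      obtain ⟨j, rfl⟩ : ∃ j', j = j' + 1 := ⟨j - 1, by omega⟩
      rw [pow_succ, Module.End.mul_apply]
      have e1 : (H - (l * m) • (1 : End ℂ A)) (a * b) =
          (H - l • (1 : End ℂ A)) a * H b + l • (a * (H - m • (1 : End ℂ A)) b) := by
        simp only [hH, LinearMap.sub_apply, AlgHom.toLinearMap_apply, map_mul,
          LinearMap.smul_apply, Module.End.one_apply]
        simp only [Algebra.smul_def, map_mul]
        ring
      rw [e1, map_add, map_smul]
      have hc : Commute H (H - m • (1 : End ℂ A)) :=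
        (Commute.refl H).sub_right ((Commute.one_right H).smul_right m)
      have h1 := ih i (j + 1) ((H - l • (1 : End ℂ A)) a) (H b) (by omega)
        (by rw [← Module.End.mul_apply, ← pow_succ]; exact hi)
        (by rw [← Module.End.mul_apply, ← (hc.pow_right (j + 1)).eq, Module.End.mul_apply, hj,
              map_zero])
      have h2 := ih (i + 1) j a ((H - m • (1 : End ℂ A)) b) (by omega) hi
        (by rw [← Module.End.mul_apply, ← pow_succ]; exact hj)
      rw [h1, h2]; simp
  exact ⟨i + j, key _ i j a b rfl hi hj⟩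

/-- The twist of an algebra endomorphism by a multiplicative function is an algebra
endomorphism. -/
theorem exists_twist_alg [FiniteDimensional ℂ A] (h : A →ₐ[ℂ] A) (c : ℂ → ℂ) (c1 : c 1 = 1)
    (cmul : ∀ a b, c (a * b) = c a * c b) :
    ∃ T : A →ₐ[ℂ] A, ∀ μ v, v ∈ Module.End.maxGenEigenspace (h.toLinearMap : End ℂ A) μ →
      T v = c μ • v := by
  obtain ⟨T, hT⟩ := exists_twist (h.toLinearMap : End ℂ A) c
  have h1 : T 1 = 1 := by
    have : (1 : A) ∈ Module.End.maxGenEigenspace (h.toLinearMap : End ℂ A) 1 := by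
      rw [Module.End.mem_maxGenEigenspace]
      exact ⟨1, by simp⟩
    rw [hT 1 1 this, c1, one_smul]
  have hm : ∀ a b, T (a * b) = T a * T b := by
    intro a
    refine eig_induction (h.toLinearMap : End ℂ A) (P := fun a => ∀ b, T (a * b) = T a * T b)
      (by simp) ?_ ?_ a
    · intro x y hx hy b
      rw [add_mul, map_add, map_add, hx, hy, add_mul]
    · intro l a ha b
      refine eig_induction (h.toLinearMap : End ℂ A) (P := fun b => T (a * b) = T a * T b)
        (by simp) ?_ ?_ b
      · intro x y hx hy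
        rw [mul_add, map_add, map_add, hx, hy, mul_add]
      · intro m b hb
        rw [hT _ _ (mul_mem_eig h ha hb), hT _ _ ha, hT _ _ hb, cmul]
        simp only [Algebra.smul_def, map_mul]
        ring
  exact ⟨AlgHom.ofLinearMap T h1 hm, fun μ v hv => hT μ v hv⟩

end Alg

section Reverse

variable {V : Type*} [AddCommGroup V] [Module ℂ V]

theorem twist_reverses [FiniteDimensional ℂ V] (h f g T : End ℂ V) (c : ℂ → ℂ)
    (cmul : ∀ a b, c (a * b) = c a * c b) (cneg : c (-1) = -1)
    (hT : ∀ μ v, v ∈ h.maxGenEigenspace μ → T v = c μ • v)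
    (h1 : ∀ v, h (f v) = g (h v)) (h2 : ∀ v, h (g v) = f (h v)) (v : V) :
    T (f v) = g (T v) := by
  refine eig_induction h (P := fun v => T (f v) = g (T v)) (by simp) ?_ ?_ v
  · intro x y hx hy
    simp only [map_add, hx, hy]
  · intro μ v hv
    have hP := map_mem_eig h h (f + g) 1 (by
      intro v; simp only [LinearMap.add_apply, map_add, h1, h2, one_smul, add_comm]) hv
    have hQ := map_mem_eig h h (f - g) (-1) (by
      intro v; simp only [LinearMap.sub_apply, map_sub, h1, h2, neg_smul, one_smul, neg_sub]) hv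
    have e1 := hT _ _ hP
    have e2 := hT _ _ hQ
    rw [one_mul] at e1
    rw [cmul, cneg] at e2
    simp only [LinearMap.add_apply, map_add, LinearMap.sub_apply, map_sub] at e1 e2
    rw [hT _ _ hv, map_smul]
    have e3 : (2 : ℂ) • T (f v) = (2 : ℂ) • (c μ • g v) := by
      have : (2 : ℂ) • T (f v) = (T (f v) + T (g v)) + (T (f v) - T (g v)) := by
        rw [two_smul]; abel
      rw [this, e1, e2]
      module
    exact smul_right_injective V (two_ne_zero) e3

theorem exists_twist_order [FiniteDimensional ℂ V] (h T : End ℂ V) (c : ℂ → ℂ)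
    (hc : ∀ a, a ≠ 0 → ∃ m : ℕ, 0 < m ∧ c a ^ m = 1) (hinj : Function.Injective h)
    (hT : ∀ μ v, v ∈ h.maxGenEigenspace μ → T v = c μ • v) :
    ∃ N : ℕ, 0 < N ∧ ∀ v, (T ^ N) v = v := by
  classical
  have hfin : Set.Finite {μ | h.HasEigenvalue μ} := h.finite_hasEigenvalue
  have h0 : ∀ μ, h.HasEigenvalue μ → μ ≠ 0 := by
    rintro μ hμ rfl
    obtain ⟨v, hv⟩ := hμ.exists_hasEigenvector
    have := hv.apply_eq_smul
    rw [zero_smul] at this
    exact hv.2 (hinj (by rw [this, map_zero]))
  choose! m hm using hc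
  refine ⟨∏ μ ∈ hfin.toFinset, m μ, ?_, ?_⟩
  · exact Finset.prod_pos fun μ hμ => (hm μ (h0 μ (by simpa using hμ))).1
  · intro v
    refine eig_induction h (P := fun v => (T ^ ∏ μ ∈ hfin.toFinset, m μ) v = v) (by simp) ?_ ?_ v
    · intro x y hx hy
      rw [map_add, hx, hy]
    · intro μ v hv
      by_cases hv0 : v = 0
      · simp [hv0]
      have hμ : h.HasEigenvalue μ := by
        have : h.HasUnifEigenvalue μ ⊤ := by
          intro hbot
          apply hv0
          have : v ∈ (⊥ : Submodule ℂ V) := hbot ▸ hv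
          simpa using this
        exact (Module.End.hasUnifEigenvalue_iff_hasUnifEigenvalue_one (by simp)).mp this
      have hpow : ∀ N : ℕ, (T ^ N) v = c μ ^ N • v := by
        intro N
        induction N with
        | zero => simp
        | succ N ih => rw [pow_succ', Module.End.mul_apply, ih, map_smul, hT _ _ hv, smul_smul,
            pow_succ]
      rw [hpow]
      obtain ⟨r, hr⟩ : m μ ∣ ∏ μ ∈ hfin.toFinset, m μ :=
        Finset.dvd_prod_of_mem _ (by simpa using hμ)
      rw [hr, pow_mul, (hm μ (h0 μ hμ)).2, one_pow, one_smul]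

/-- A twist some power of which is unipotent has that power equal to the identity. -/
theorem twist_pow_eq_of_unipotent [FiniteDimensional ℂ V] (h T : End ℂ V) (c : ℂ → ℂ)
    (hT : ∀ μ v, v ∈ h.maxGenEigenspace μ → T v = c μ • v) (N k : ℕ)
    (hu : ∀ v, ((T ^ N - 1) ^ k) v = 0) (v : V) : (T ^ N) v = v := by
  refine eig_induction h (P := fun v => (T ^ N) v = v) (by simp) ?_ ?_ v
  · intro x y hx hy
    rw [map_add, hx, hy]
  · intro μ v hv
    have hpow : ∀ N : ℕ, (T ^ N) v = c μ ^ N • v := by
      intro N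
      induction N with
      | zero => simp
      | succ N ih => rw [pow_succ', Module.End.mul_apply, ih, map_smul, hT _ _ hv, smul_smul,
          pow_succ]
    have hpow2 : ∀ k : ℕ, ((T ^ N - 1) ^ k) v = (c μ ^ N - 1) ^ k • v := by
      intro k
      induction k with
      | zero => simp
      | succ k ih =>
        rw [pow_succ', Module.End.mul_apply, ih, map_smul, LinearMap.sub_apply, hpow,
          Module.End.one_apply, pow_succ, mul_smul, sub_smul, one_smul]
    have := hu v
    rw [hpow2, smul_eq_zero] at this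
    rcases this with h0 | h0
    · have : c μ ^ N = 1 := sub_eq_zero.mp (pow_eq_zero_iff'.mp h0).1
      rw [hpow, this, one_smul]
    · simp [h0]

end Reverse

end Pool.Agent.Lib.MP_9aaefc_al
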