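import Mathlib
import Pool.Agent.Lib.MP_9aaefc_al.Twist

/-!
Formal maps acting on the truncations of the power series ring.
-/

set_option autoImplicit false

namespace Pool.Agent.Lib.MP_9aaefc_al

open Module MvPowerSeries

variable {n : ℕ}

/-- Power series in `n` variables. -/
abbrev PS (n : ℕ) := MvPowerSeries (Fin n) ℂ

/-- The ideal of series of order at least `k`. -/
def ordI (n k : ℕ) : Ideal (PS n) where
  carrier := {f | (k : ℕ∞) ≤ f.order}
  add_mem' := fun ha hb => (le_min ha hb).trans min_order_le_add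
  zero_mem' := by simp
  smul_mem' := fun c x hx => by
    show (k : ℕ∞) ≤ (c * x).order
    exact le_trans (le_trans hx le_add_self) le_order_mul

theorem mem_ordI {k : ℕ} {f : PS n} : f ∈ ordI n k ↔ (k : ℕ∞) ≤ f.order := Iff.rfl

theorem mem_ordI_iff {k : ℕ} {f : PS n} :
    f ∈ ordI n k ↔ ∀ d : Fin n →₀ ℕ, d.degree < k → coeff d f = 0 := by
  constructor
  · intro h d hd
    exact coeff_of_lt_order (lt_of_lt_of_le (by exact_mod_cast hd) h)
  · intro h
    exact nat_le_order h

theorem ordI_anti {k l : ℕ} (h : l ≤ k) : ordI n k ≤ ordI n l := fun _ hf =>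
  le_trans (by exact_mod_cast h) (mem_ordI.mp hf)

theorem mul_mem_ordI {k l : ℕ} {f g : PS n} (hf : f ∈ ordI n k) (hg : g ∈ ordI n l) :
    f * g ∈ ordI n (k + l) := by
  rw [mem_ordI] at *
  refine le_trans ?_ le_order_mul
  push_cast
  exact add_le_add hf hg

theorem eq_of_forall_sub_mem {f g : PS n} (h : ∀ k, f - g ∈ ordI n k) : f = g := by
  ext d
  have := mem_ordI_iff.mp (h (d.degree + 1)) d (Nat.lt_succ_self _)
  rwa [map_sub, sub_eq_zero] at this

theorem sub_trunc_mem (k : ℕ) (f : PS n) :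
    f - ((truncTotal k f : MvPolynomial (Fin n) ℂ) : PS n) ∈ ordI n k := by
  rw [mem_ordI_iff]
  intro d hd
  rw [map_sub, MvPolynomial.coeff_coe, coeff_truncTotal _ hd, sub_self]

theorem mem_one_iff {f : PS n} : f ∈ ordI n 1 ↔ constantCoeff f = 0 := by
  rw [mem_ordI]
  exact_mod_cast one_le_order_iff_constCoeff_eq_zero

theorem X_mem (i : Fin n) : (X i : PS n) ∈ ordI n 1 := by
  rw [mem_one_iff]; simp

/-- Substitution as an algebra endomorphism. -/
noncomputable def sig (M : Fin n → PS n) (hM : ∀ i, constantCoeff (M i) = 0) : PS n →ₐ[ℂ] PS n :=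
  substAlgHom (hasSubst_of_constantCoeff_zero hM)

theorem sig_apply (M : Fin n → PS n) (hM : ∀ i, constantCoeff (M i) = 0) (f : PS n) :
    sig M hM f = subst M f := substAlgHom_apply _ _

theorem sig_X (M : Fin n → PS n) (hM : ∀ i, constantCoeff (M i) = 0) (i : Fin n) :
    sig M hM (X i) = M i := by
  rw [sig_apply, subst_X (hasSubst_of_constantCoeff_zero hM)]

theorem sig_mem (M : Fin n → PS n) (hM : ∀ i, constantCoeff (M i) = 0) {k : ℕ} {f : PS n}
    (hf : f ∈ ordI n k) : sig M hM f ∈ ordI n k := by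
  rw [mem_ordI, sig_apply]
  refine le_trans ?_ (le_order_subst (hasSubst_of_constantCoeff_zero hM) f)
  have h1 : (1 : ℕ∞) ≤ ⨅ i, (M i).order :=
    le_iInf fun i => one_le_order_iff_constCoeff_eq_zero.mpr (hM i)
  calc (k : ℕ∞) ≤ f.order := hf
    _ = 1 * f.order := (one_mul _).symm
    _ ≤ _ := mul_le_mul_left h1 _

/-- The truncated algebra. -/
abbrev Q (n k : ℕ) := PS n ⧸ ordI n k

instance finQ (k : ℕ) : Module.Finite ℂ (Q n k) := by
  let φ : MvPolynomial.restrictTotalDegree (Fin n) ℂ k →ₗ[ℂ] Q n k :=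
    (Ideal.Quotient.mkₐ ℂ (ordI n k)).toLinearMap ∘ₗ
      (MvPolynomial.coeToMvPowerSeries.algHom (σ := Fin n) (R := ℂ) ℂ).toLinearMap ∘ₗ
      (MvPolynomial.restrictTotalDegree (Fin n) ℂ k).subtype
  refine Module.Finite.of_surjective φ ?_
  intro q
  obtain ⟨f, rfl⟩ := Ideal.Quotient.mk_surjective q
  refine ⟨⟨truncTotal k f, ?_⟩, ?_⟩
  · rw [MvPolynomial.mem_restrictTotalDegree]
    rcases Nat.eq_zero_or_pos k with rfl | hk
    · have : truncTotal 0 f = 0 := by
        ext d
        simp [coeff_truncTotal_eq_zero]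
      simp [this]
    · exact (totalDegree_truncTotal_lt f hk.ne').le
  · simp only [φ, LinearMap.comp_apply, Submodule.subtype_apply, AlgHom.toLinearMap_apply,
      Ideal.Quotient.mkₐ_eq_mk]
    rw [eq_comm, Ideal.Quotient.eq]
    have := sub_trunc_mem k f
    convert this using 2
    simp [MvPolynomial.coeToMvPowerSeries.algHom_apply]

/-- The action of a formal map on the truncated algebra. -/
noncomputable def bar (M : Fin n → PS n) (hM : ∀ i, constantCoeff (M i) = 0) (k : ℕ) :
    Q n k →ₐ[ℂ] Q n k :=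
  Ideal.quotientMapₐ (ordI n k) (sig M hM) (fun _ hf => sig_mem M hM hf)

theorem bar_mk (M : Fin n → PS n) (hM : ∀ i, constantCoeff (M i) = 0) (k : ℕ) (f : PS n) :
    bar M hM k (Ideal.Quotient.mk _ f) = Ideal.Quotient.mk _ (sig M hM f) := rfl

/-- The projection between truncated algebras. -/
noncomputable def proj {k l : ℕ} (h : l ≤ k) : Q n k →ₐ[ℂ] Q n l :=
  Ideal.quotientMapₐ (ordI n l) (AlgHom.id ℂ (PS n)) (fun _ hf => ordI_anti h hf)

theorem proj_mk {k l : ℕ} (h : l ≤ k) (f : PS n) :
    proj h (Ideal.Quotient.mk (ordI n k) f) = Ideal.Quotient.mk _ f := rfl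

theorem algHom_ext_trunc {B : Type*} [CommRing B] [Algebra ℂ B] (k : ℕ) (α β : PS n →ₐ[ℂ] B)
    (hα : ∀ f ∈ ordI n k, α f = 0) (hβ : ∀ f ∈ ordI n k, β f = 0)
    (hX : ∀ i, α (X i) = β (X i)) (f : PS n) : α f = β f := by
  have hp : ∀ p : MvPolynomial (Fin n) ℂ, α (p : PS n) = β (p : PS n) := by
    intro p
    have : α.comp (MvPolynomial.coeToMvPowerSeries.algHom (σ := Fin n) (R := ℂ) ℂ) =
        β.comp (MvPolynomial.coeToMvPowerSeries.algHom (σ := Fin n) (R := ℂ) ℂ) := by
      apply MvPolynomial.algHom_ext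
      intro i
      simpa [MvPolynomial.coeToMvPowerSeries.algHom_apply] using hX i
    simpa [MvPolynomial.coeToMvPowerSeries.algHom_apply] using DFunLike.congr_fun this p
  have h1 := hα _ (sub_trunc_mem k f)
  have h2 := hβ _ (sub_trunc_mem k f)
  rw [map_sub, sub_eq_zero] at h1 h2
  rw [h1, h2, hp]

theorem unip_step (ψ : PS n →ₐ[ℂ] PS n) (hψ : ∀ k, ∀ f ∈ ordI n k, ψ f ∈ ordI n k)
    (hX : ∀ i, ψ (X i) - X i ∈ ordI n 2) (j : ℕ) (f : PS n) (hf : f ∈ ordI n j) :
    ψ f - f ∈ ordI n (j + 1) := by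
  have hmul : ∀ (j l : ℕ) (a b : PS n), a ∈ ordI n j → ψ a - a ∈ ordI n (j + 1) →
      b ∈ ordI n l → ψ b - b ∈ ordI n (l + 1) → ψ (a * b) - a * b ∈ ordI n (j + l + 1) := by
    intro j l a b ha ha' hb hb'
    have e : ψ (a * b) - a * b = (ψ a - a) * ψ b + a * (ψ b - b) := by
      rw [map_mul]; ring
    rw [e]
    refine Ideal.add_mem _ ?_ ?_
    · have := mul_mem_ordI ha' (hψ _ _ hb)
      rwa [show j + 1 + l = j + l + 1 by ring] at this
    · exact mul_mem_ordI (k := j) (l := l + 1) ha hb'
  have hmon : ∀ d : Fin n →₀ ℕ, (monomial d (1 : ℂ) : PS n) ∈ ordI n d.degree ∧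
      ψ (monomial d 1) - monomial d 1 ∈ ordI n (d.degree + 1) := by
    intro d
    induction d using Finsupp.induction_linear with
    | zero =>
      refine ⟨by simp [mem_ordI], ?_⟩
      have : (monomial (0 : Fin n →₀ ℕ) (1 : ℂ) : PS n) = 1 := rfl
      rw [this, map_one, sub_self]
      exact Ideal.zero_mem _
    | add d e hd he =>
      have : (monomial (d + e) (1 : ℂ) : PS n) = monomial d 1 * monomial e 1 := by
        rw [monomial_mul_monomial, one_mul]
      rw [this, map_add]
      exact ⟨mul_mem_ordI hd.1 he.1, hmul _ _ _ _ hd.1 hd.2 he.1 he.2⟩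
    | single i m =>
      rw [← X_pow_eq, Finsupp.degree_single]
      induction m with
      | zero =>
        refine ⟨by simp [mem_ordI], ?_⟩
        rw [pow_zero, map_one, sub_self]
        exact Ideal.zero_mem _
      | succ m ih =>
        rw [pow_succ]
        exact ⟨mul_mem_ordI ih.1 (X_mem i), hmul _ _ _ _ ih.1 ih.2 (X_mem i) (hX i)⟩
  set p : MvPolynomial (Fin n) ℂ := truncTotal (j + 1) f with hp
  have hr := sub_trunc_mem (j + 1) f
  rw [← hp] at hr
  have e : ψ f - f = (ψ (f - p) - (f - p)) + (ψ p - p) := by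
    rw [map_sub]; ring
  rw [e]
  refine Ideal.add_mem _ (Ideal.sub_mem _ (hψ _ _ hr) hr) ?_
  have hsum : (p : PS n) = ∑ d ∈ p.support, (p.coeff d) • (monomial d (1 : ℂ) : PS n) := by
    conv_lhs => rw [p.as_sum]
    rw [← MvPolynomial.coeToMvPowerSeries.ringHom_apply, map_sum]
    refine Finset.sum_congr rfl fun d _ => ?_
    rw [MvPolynomial.coeToMvPowerSeries.ringHom_apply, MvPolynomial.coe_monomial, ← map_smul,
      smul_eq_mul, mul_one]
  rw [hsum, map_sum, ← Finset.sum_sub_distrib]
  refine Ideal.sum_mem _ fun d hd => ?_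
  rw [map_smul, ← smul_sub, Algebra.smul_def]
  refine Ideal.mul_mem_left _ _ (ordI_anti ?_ (hmon d).2)
  have h1 : p.coeff d ≠ 0 := MvPolynomial.mem_support_iff.mp hd
  by_contra hlt
  apply h1
  have hlt' : d.degree < j := by omega
  rw [hp, coeff_truncTotal _ (by omega)]
  exact mem_ordI_iff.mp hf d hlt'

theorem unip_pow (ψ : PS n →ₐ[ℂ] PS n) (hψ : ∀ k, ∀ f ∈ ordI n k, ψ f ∈ ordI n k)
    (hX : ∀ i, ψ (X i) - X i ∈ ordI n 2) (k : ℕ) (f : PS n) :
    (((ψ.toLinearMap : End ℂ (PS n)) - 1) ^ k) f ∈ ordI n k := by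
  induction k with
  | zero => simp [mem_ordI]
  | succ k ih =>
    rw [pow_succ', Module.End.mul_apply]
    exact unip_step ψ hψ hX k _ ih

/-- A compatible family of endomorphisms of the truncations comes from a formal map. -/
theorem exists_limit (T : ∀ k, Q n k →ₐ[ℂ] Q n k)
    (hT : ∀ k l (h : l ≤ k) v, proj h (T k v) = T l (proj h v)) :
    ∃ (K : Fin n → PS n) (hK : ∀ i, constantCoeff (K i) = 0),
      ∀ k f, Ideal.Quotient.mk (ordI n k) (sig K hK f) = T k (Ideal.Quotient.mk _ f) := by
  choose t ht using fun k i => Ideal.Quotient.mk_surjective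
    (T k (Ideal.Quotient.mk (ordI n k) (X i : PS n)))
  have hcomp : ∀ k l (h : l ≤ k) i, t k i - t l i ∈ ordI n l := by
    intro k l h i
    rw [← Ideal.Quotient.eq, ht l i, ← proj_mk h (X i), ← hT k l h, ← ht k i, proj_mk]
  let K : Fin n → PS n := fun i d => coeff d (t (d.degree + 1) i)
  have hKc : ∀ i d, coeff d (K i) = coeff d (t (d.degree + 1) i) := fun i d => rfl
  have hKt : ∀ k i, K i - t k i ∈ ordI n k := by
    intro k i
    rw [mem_ordI_iff]
    intro d hd
    have := mem_ordI_iff.mp (hcomp k (d.degree + 1) hd i) d (Nat.lt_succ_self _)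
    rw [map_sub, sub_eq_zero] at this
    rw [map_sub, hKc, this, sub_self]
  have hK : ∀ i, constantCoeff (K i) = 0 := by
    intro i
    rw [← mem_one_iff]
    have h1 : t 1 i ∈ ordI n 1 := by
      rw [← Ideal.Quotient.eq_zero_iff_mem, ht, Ideal.Quotient.eq_zero_iff_mem.mpr (X_mem i),
        map_zero]
    simpa using Ideal.add_mem _ (hKt 1 i) h1
  refine ⟨K, hK, fun k f => ?_⟩
  refine algHom_ext_trunc k ((Ideal.Quotient.mkₐ ℂ (ordI n k)).comp (sig K hK))
    ((T k).comp (Ideal.Quotient.mkₐ ℂ (ordI n k))) ?_ ?_ ?_ f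
  · intro f hf
    exact Ideal.Quotient.eq_zero_iff_mem.mpr (sig_mem K hK hf)
  · intro f hf
    simp only [AlgHom.comp_apply, Ideal.Quotient.mkₐ_eq_mk]
    rw [Ideal.Quotient.eq_zero_iff_mem.mpr hf, map_zero]
  · intro i
    simp only [AlgHom.comp_apply, Ideal.Quotient.mkₐ_eq_mk]
    rw [sig_X, ← ht k i, Ideal.Quotient.eq]
    exact hKt k i

theorem iterate_eq (K : Fin n → PS n) (hK : ∀ i, constantCoeff (K i) = 0) (m : ℕ) :
    (∀ i, constantCoeff ((fun M : Fin n → PS n => fun i => subst M (K i))^[m]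
      (fun i => X i) i) = 0) ∧
    ∀ f : PS n, subst ((fun M : Fin n → PS n => fun i => subst M (K i))^[m] (fun i => X i)) f =
      (sig K hK ^ m) f := by
  induction m with
  | zero =>
    refine ⟨by simp, fun f => ?_⟩
    simp only [Function.iterate_zero, id_eq, pow_zero, AlgHom.one_apply]
    exact congrFun subst_self f
  | succ m ih =>
    rw [Function.iterate_succ_apply']
    set M := (fun M : Fin n → PS n => fun i => subst M (K i))^[m] (fun i => X i) with hM
    refine ⟨fun i => constantCoeff_subst_eq_zero (hasSubst_of_constantCoeff_zero ih.1) ih.1 (hK i),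
      fun f => ?_⟩
    rw [← subst_comp_subst_apply (hasSubst_of_constantCoeff_zero hK)
      (hasSubst_of_constantCoeff_zero ih.1), ih.2, pow_succ, AlgHom.mul_apply, sig_apply]

theorem main (F G H H' : Fin n → PS n) (hF : ∀ i, constantCoeff (F i) = 0)
    (hG : ∀ i, constantCoeff (G i) = 0) (hH : ∀ i, constantCoeff (H i) = 0)
    (hH' : ∀ i, constantCoeff (H' i) = 0)
    (hGF : ∀ i, subst G (F i) = (X i : PS n)) (hFG : ∀ i, subst F (G i) = (X i : PS n))
    (hHH : ∀ i, subst H' (H i) = (X i : PS n))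
    (hrev : ∀ i, subst (fun j => subst F (H j)) (F i) = H i) :
    ∃ K : Fin n → PS n, (∀ i, constantCoeff (K i) = 0) ∧
      (∃ k : ℕ, 1 ≤ k ∧ (fun M : Fin n → PS n => fun i => subst M (K i))^[k]
        (fun i => X i) = (fun i => X i)) ∧
      (∀ i, subst (fun j => subst F (K j)) (F i) = K i) := by
  have sF := hasSubst_of_constantCoeff_zero hF
  have sG := hasSubst_of_constantCoeff_zero hG
  have sH := hasSubst_of_constantCoeff_zero hH
  have sH' := hasSubst_of_constantCoeff_zero hH'
  have eGF : ∀ f, sig G hG (sig F hF f) = f := by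
    intro f
    rw [sig_apply, sig_apply, subst_comp_subst_apply sF sG, funext hGF]
    exact congrFun subst_self f
  have eFG : ∀ f, sig F hF (sig G hG f) = f := by
    intro f
    rw [sig_apply, sig_apply, subst_comp_subst_apply sG sF, funext hFG]
    exact congrFun subst_self f
  have eHH : ∀ f, sig H' hH' (sig H hH f) = f := by
    intro f
    rw [sig_apply, sig_apply, subst_comp_subst_apply sH sH', funext hHH]
    exact congrFun subst_self f
  have eR : ∀ f, sig F hF (sig H hH (sig F hF f)) = sig H hH f := by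
    intro f
    have sFH : HasSubst (fun j => subst F (H j) : Fin n → PS n) :=
      hasSubst_of_constantCoeff_zero fun j => constantCoeff_subst_eq_zero sF hF (hH j)
    rw [sig_apply, sig_apply, sig_apply, subst_comp_subst_apply sH sF,
      subst_comp_subst_apply sF sFH, funext hrev, sig_apply]
  have e1 : ∀ f, sig H hH (sig F hF f) = sig G hG (sig H hH f) := by
    intro f
    rw [← eR f, eGF]
  have e2 : ∀ f, sig H hH (sig G hG f) = sig F hF (sig H hH f) := by
    intro f
    rw [← eR (sig G hG f), eFG]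
  obtain ⟨c, c1, cmul, cneg, cfin⟩ := exists_character
  choose T hT using fun k => exists_twist_alg (bar H hH k) c c1 cmul
  have hcompat : ∀ k l (h : l ≤ k) v, proj h (T k v) = T l (proj h v) := by
    intro k l h v
    refine eig_induction ((bar H hH k).toLinearMap : End ℂ (Q n k))
      (P := fun v => proj h (T k v) = T l (proj h v)) (by simp) ?_ ?_ v
    · intro x y hx hy
      simp only [map_add, hx, hy]
    · intro μ v hv
      have := map_mem_eig ((bar H hH k).toLinearMap : End ℂ (Q n k))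
        ((bar H hH l).toLinearMap : End ℂ (Q n l)) (proj h).toLinearMap 1 (by
          intro v
          obtain ⟨f, rfl⟩ := Ideal.Quotient.mk_surjective v
          simp only [AlgHom.toLinearMap_apply, one_smul, proj_mk, bar_mk]) hv
      rw [one_mul] at this
      rw [hT _ _ _ hv, map_smul]
      exact (hT _ _ _ this).symm
  obtain ⟨K, hK, hKT⟩ := exists_limit T hcompat
  have sK := hasSubst_of_constantCoeff_zero hK
  have hKTpow : ∀ k m f, Ideal.Quotient.mk (ordI n k) ((sig K hK ^ m) f) =
      (((T k).toLinearMap : End ℂ (Q n k)) ^ m) (Ideal.Quotient.mk _ f) := by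
    intro k m
    induction m with
    | zero => intro f; simp
    | succ m ih =>
      intro f
      rw [pow_succ', pow_succ', AlgHom.mul_apply, Module.End.mul_apply, hKT, ih]
      rfl
  refine ⟨K, hK, ?_, ?_⟩
  · obtain ⟨N, hN, hN2⟩ := exists_twist_order ((bar H hH 2).toLinearMap : End ℂ (Q n 2))
      (T 2).toLinearMap c cfin (by
        have : Function.LeftInverse (bar H' hH' 2) (bar H hH 2) := by
          intro v
          obtain ⟨f, rfl⟩ := Ideal.Quotient.mk_surjective v
          rw [bar_mk, bar_mk, eHH]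
        exact this.injective) (hT 2)
    refine ⟨N, hN, ?_⟩
    have hψ : ∀ (m k : ℕ), ∀ f ∈ ordI n k, (sig K hK ^ m) f ∈ ordI n k := by
      intro m k
      induction m with
      | zero => intro f hf; simpa using hf
      | succ m ih =>
        intro f hf
        rw [pow_succ', AlgHom.mul_apply]
        exact sig_mem K hK (ih f hf)
    have hX : ∀ i, (sig K hK ^ N) (X i) - X i ∈ ordI n 2 := by
      intro i
      rw [← Ideal.Quotient.eq, hKTpow, hN2]
    funext i
    have h1 := (iterate_eq K hK N).2 (X i)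
    rw [subst_X (hasSubst_of_constantCoeff_zero (iterate_eq K hK N).1)] at h1
    rw [h1]
    apply eq_of_forall_sub_mem
    intro k
    rw [← Ideal.Quotient.eq, hKTpow]
    refine twist_pow_eq_of_unipotent ((bar H hH k).toLinearMap : End ℂ (Q n k))
      (T k).toLinearMap c (hT k) N k ?_ _
    intro v
    obtain ⟨f, rfl⟩ := Ideal.Quotient.mk_surjective v
    have key : ∀ (j : ℕ) (f : PS n),
        ((((T k).toLinearMap : End ℂ (Q n k)) ^ N - 1) ^ j) (Ideal.Quotient.mk _ f) =
        Ideal.Quotient.mk _ (((((sig K hK ^ N).toLinearMap : End ℂ (PS n)) - 1) ^ j) f) := by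
      intro j
      induction j with
      | zero => intro f; simp
      | succ j ih =>
        intro f
        rw [pow_succ', pow_succ', Module.End.mul_apply, Module.End.mul_apply, ih,
          LinearMap.sub_apply, LinearMap.sub_apply, Module.End.one_apply, Module.End.one_apply,
          map_sub, ← hKTpow]
        rfl
    rw [key, Ideal.Quotient.eq_zero_iff_mem]
    exact unip_pow _ (hψ N) hX k f
  · intro i
    rw [← subst_comp_subst_apply sK sF]
    apply eq_of_forall_sub_mem
    intro k
    have h1 := twist_reverses ((bar H hH k).toLinearMap : End ℂ (Q n k))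
      (bar F hF k).toLinearMap (bar G hG k).toLinearMap (T k).toLinearMap c cmul cneg (hT k)
      (by
        intro v
        obtain ⟨f, rfl⟩ := Ideal.Quotient.mk_surjective v
        simp only [AlgHom.toLinearMap_apply, bar_mk, e1])
      (by
        intro v
        obtain ⟨f, rfl⟩ := Ideal.Quotient.mk_surjective v
        simp only [AlgHom.toLinearMap_apply, bar_mk, e2])
      (Ideal.Quotient.mk _ (X i))
    simp only [AlgHom.toLinearMap_apply, bar_mk] at h1
    rw [← hKT, ← hKT, bar_mk, sig_X, sig_X] at h1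
    have h2 := congrArg (bar F hF k) h1
    rw [bar_mk, bar_mk, eFG] at h2
    rw [← Ideal.Quotient.eq, ← h2, sig_apply, sig_apply]

end Pool.Agent.Lib.MP_9aaefc_al
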